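import Mathlib

set_option autoImplicit false

universe u v

namespace Pool.Agent.Results.MP_cc3859_lc.StableCounterexample

open Set

/-! ### Continuous first-order logic -/

/-- A language of continuous first-order logic: function symbols and predicate symbols with their
arities, and for each symbol a modulus of uniform continuity. -/
structure Lang where
  /-- The function symbols of each arity. -/
  Fn : ℕ → Type
  /-- The predicate symbols of each arity. -/
  Pr : ℕ → Type
  /-- The modulus of a function symbol. -/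
  fnMod : ∀ {n : ℕ}, Fn n → ℝ → ℝ
  /-- The modulus of a predicate symbol. -/
  prMod : ∀ {n : ℕ}, Pr n → ℝ → ℝ
  fnMod_pos : ∀ {n : ℕ} (f : Fn n) (ε : ℝ), 0 < ε → 0 < fnMod f ε
  prMod_pos : ∀ {n : ℕ} (R : Pr n) (ε : ℝ), 0 < ε → 0 < prMod R ε

/-- An `L`-structure: a nonempty complete metric space of diameter at most one, with functions and
`[0,1]`-valued predicates that are uniformly continuous with the moduli given by `L`. Tuples are
measured by the maximum metric. -/
structure Str (L : Lang) where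
  /-- The underlying set. -/
  carrier : Type u
  [met : MetricSpace carrier]
  [complete : CompleteSpace carrier]
  [ne : Nonempty carrier]
  dist_le : ∀ x y : carrier, dist x y ≤ 1
  /-- The interpretation of the function symbols. -/
  fn : ∀ {n : ℕ}, L.Fn n → (Fin n → carrier) → carrier
  /-- The interpretation of the predicate symbols. -/
  pr : ∀ {n : ℕ}, L.Pr n → (Fin n → carrier) → ℝ
  pr_mem : ∀ {n : ℕ} (R : L.Pr n) (x : Fin n → carrier), pr R x ∈ Icc (0 : ℝ) 1
  fn_uc : ∀ {n : ℕ} (f : L.Fn n) (ε : ℝ), 0 < ε → ∀ x y : Fin n → carrier,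
    dist x y < L.fnMod f ε → dist (fn f x) (fn f y) ≤ ε
  pr_uc : ∀ {n : ℕ} (R : L.Pr n) (ε : ℝ), 0 < ε → ∀ x y : Fin n → carrier,
    dist x y < L.prMod R ε → |pr R x - pr R y| ≤ ε

attribute [instance] Str.met Str.complete Str.ne

/-- Terms with free variables indexed by `Fin n`. -/
inductive Term (L : Lang) (n : ℕ) : Type
  | var : Fin n → Term L n
  | app {k : ℕ} : L.Fn k → (Fin k → Term L n) → Term L n

/-- Formulas with free variables indexed by `Fin n`: distances of terms, predicates of terms,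
continuous connectives `[0,1]^k → [0,1]`, and the quantifiers `inf` and `sup`, which bind the last
variable. -/
inductive Fml (L : Lang) : ℕ → Type
  | dist {n : ℕ} : Term L n → Term L n → Fml L n
  | pred {n k : ℕ} : L.Pr k → (Fin k → Term L n) → Fml L n
  | conn {n k : ℕ} (c : (Fin k → ℝ) → ℝ) (hc : Continuous c)
      (h : ∀ z : Fin k → ℝ, (∀ i, z i ∈ Icc (0 : ℝ) 1) → c z ∈ Icc (0 : ℝ) 1) :
      (Fin k → Fml L n) → Fml L n
  | inf {n : ℕ} : Fml L (n + 1) → Fml L n
  | sup {n : ℕ} : Fml L (n + 1) → Fml L n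

variable {L : Lang}

/-- The value of a term. -/
def Term.eval (M : Str.{u} L) {n : ℕ} : Term L n → (Fin n → M.carrier) → M.carrier
  | .var i, v => v i
  | .app f ts, v => M.fn f (fun i => (ts i).eval M v)

/-- The value of a formula. -/
noncomputable def Fml.eval (M : Str.{u} L) : ∀ {n : ℕ}, Fml L n → (Fin n → M.carrier) → ℝ
  | _, .dist s t, v => Dist.dist (s.eval M v) (t.eval M v)
  | _, .pred R ts, v => M.pr R (fun i => (ts i).eval M v)
  | _, .conn c _ _ φs, v => c (fun i => (φs i).eval M v)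
  | _, .inf φ, v => ⨅ a : M.carrier, φ.eval M (Fin.snoc (α := fun _ => M.carrier) v a)
  | _, .sup φ, v => ⨆ a : M.carrier, φ.eval M (Fin.snoc (α := fun _ => M.carrier) v a)

/-- `M` is a model of the set of sentences `T`: every sentence of `T` has the value `0`. -/
def Models (M : Str.{u} L) (T : Set (Fml L 0)) : Prop :=
  ∀ φ ∈ T, φ.eval M (fun i => i.elim0) = 0

/-- `T` is complete: it has a model, and every sentence has the same value in all its models. -/
def IsCompleteTheory (T : Set (Fml L 0)) : Prop :=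
  (∃ M : Str.{u} L, Models M T) ∧ ∀ (M N : Str.{u} L), Models M T → Models N T →
    ∀ φ : Fml L 0, φ.eval M (fun i => i.elim0) = φ.eval N (fun i => i.elim0)

/-- `T` is stable: for every formula `φ(x, y)` and every `ε > 0` no model of `T` has infinite
sequences `a`, `b` of tuples with `|φ(a i, b j) - φ(a j, b i)| ≥ ε` for all `i < j`. -/
def IsStable (T : Set (Fml L 0)) : Prop :=
  ∀ M : Str.{u} L, Models M T → ∀ (m n : ℕ) (φ : Fml L (m + n)) (ε : ℝ), 0 < ε →
    ¬ ∃ (a : ℕ → Fin m → M.carrier) (b : ℕ → Fin n → M.carrier), ∀ i j, i < j →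
      ε ≤ |φ.eval M (Fin.append (a i) (b j)) - φ.eval M (Fin.append (a j) (b i))|

/-- `f` is a definable predicate over `A`: a uniform limit of formulas with parameters in `A`. -/
def IsDefinablePred (M : Str.{u} L) (A : Set M.carrier) {n : ℕ}
    (f : (Fin n → M.carrier) → ℝ) : Prop :=
  ∀ ε : ℝ, 0 < ε → ∃ (k : ℕ) (φ : Fml L (n + k)) (c : Fin k → M.carrier), (∀ i, c i ∈ A) ∧
    ∀ x, |f x - φ.eval M (Fin.append x c)| ≤ ε

/-- `D` is d-definable over `A`: it is closed and `x ↦ dist(x, D)` is a definable predicate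
over `A`. -/
def IsDDefinable (M : Str.{u} L) (A : Set M.carrier) {n : ℕ}
    (D : Set (Fin n → M.carrier)) : Prop :=
  IsClosed D ∧ IsDefinablePred M A (fun x => Metric.infDist x D)

/-- A complete `n`-type over `A`: an assignment of values to the formulas with parameters in `A`
such that every finite part of it is approximately realized in `M`. -/
structure CompleteType (M : Str.{u} L) (A : Set M.carrier) (n : ℕ) where
  /-- The value that the type gives to a formula with parameters. -/
  val : ∀ k : ℕ, Fml L (n + k) → (Fin k → A) → ℝ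
  finite_approx : ∀ (F : Set (Σ k : ℕ, Fml L (n + k) × (Fin k → A))), F.Finite →
    ∀ ε : ℝ, 0 < ε → ∃ x : Fin n → M.carrier, ∀ q ∈ F,
      |q.2.1.eval M (Fin.append x (fun i => (q.2.2 i : M.carrier))) - val q.1 q.2.1 q.2.2| ≤ ε

/-- The set `p(M)` of realizations in `M` of a complete type. -/
def CompleteType.realizations {M : Str.{u} L} {A : Set M.carrier} {n : ℕ}
    (p : CompleteType M A n) : Set (Fin n → M.carrier) :=
  {x | ∀ (k : ℕ) (φ : Fml L (n + k)) (c : Fin k → A),
    φ.eval M (Fin.append x (fun i => (c i : M.carrier))) = p.val k φ c}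

/-- `T` has enough d-definable sets: for every model `M`, every `A ⊆ M` and every complete
`n`-type `p` over `A`, the set `p(M)` is an intersection of sets that are d-definable in `M`
over `A`. -/
def HasEnoughDDefinable (T : Set (Fml L 0)) : Prop :=
  ∀ M : Str.{u} L, Models M T → ∀ (A : Set M.carrier) (n : ℕ) (p : CompleteType M A n),
    ∃ 𝒟 : Set (Set (Fin n → M.carrier)), (∀ D ∈ 𝒟, IsDDefinable M A D) ∧
      ⋂₀ 𝒟 = p.realizations

/-! ### General facts -/

theorem iInf_mem {α : Type u} [Nonempty α] {f : α → ℝ} (hf : ∀ a, f a ∈ Icc (0 : ℝ) 1) :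
    (⨅ a, f a) ∈ Icc (0 : ℝ) 1 :=
  ⟨le_ciInf fun a => (hf a).1,
    (ciInf_le ⟨0, by rintro _ ⟨a, rfl⟩; exact (hf a).1⟩ (Classical.arbitrary α)).trans (hf _).2⟩

theorem iSup_mem {α : Type u} [Nonempty α] {f : α → ℝ} (hf : ∀ a, f a ∈ Icc (0 : ℝ) 1) :
    (⨆ a, f a) ∈ Icc (0 : ℝ) 1 :=
  ⟨(hf (Classical.arbitrary α)).1.trans
    (le_ciSup ⟨1, by rintro _ ⟨a, rfl⟩; exact (hf a).2⟩ (Classical.arbitrary α)),
    ciSup_le fun a => (hf a).2⟩

theorem eval_mem (M : Str.{u} L) {n : ℕ} (φ : Fml L n) :
    ∀ v : Fin n → M.carrier, φ.eval M v ∈ Icc (0 : ℝ) 1 := by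
  induction φ with
  | dist s t => intro v; exact ⟨dist_nonneg, M.dist_le _ _⟩
  | pred R ts => intro v; exact M.pr_mem _ _
  | conn c hc h φs ih => intro v; exact h _ fun i => ih i v
  | inf φ ih => intro v; exact iInf_mem fun a => ih _
  | sup φ ih => intro v; exact iSup_mem fun a => ih _

theorem iInf_le_add {α : Type u} {β : Type v} [Nonempty α] [Nonempty β] {f : α → ℝ} {g : β → ℝ}
    {ε : ℝ} (hf : ∀ a, f a ∈ Icc (0 : ℝ) 1) (h : ∀ b, ∃ a, |f a - g b| ≤ ε) :
    (⨅ a, f a) ≤ (⨅ b, g b) + ε := by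
  have h1 : (⨅ a, f a) - ε ≤ ⨅ b, g b := by
    refine le_ciInf fun b => ?_
    obtain ⟨a, ha⟩ := h b
    have h2 : (⨅ a, f a) ≤ f a := ciInf_le ⟨0, by rintro _ ⟨a, rfl⟩; exact (hf a).1⟩ a
    have h3 := (abs_le.1 ha).2
    linarith
  linarith

theorem le_iSup_add {α : Type u} {β : Type v} [Nonempty α] [Nonempty β] {f : α → ℝ} {g : β → ℝ}
    {ε : ℝ} (hf : ∀ a, f a ∈ Icc (0 : ℝ) 1) (h : ∀ b, ∃ a, |f a - g b| ≤ ε) :
    (⨆ b, g b) ≤ (⨆ a, f a) + ε := by
  refine ciSup_le fun b => ?_
  obtain ⟨a, ha⟩ := h b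
  have h2 : f a ≤ ⨆ a, f a := le_ciSup ⟨1, by rintro _ ⟨a, rfl⟩; exact (hf a).2⟩ a
  have h3 := (abs_le.1 ha).1
  linarith

/-- The universal closure of a formula. -/
def supAll : ∀ {n : ℕ}, Fml L n → Fml L 0
  | 0, φ => φ
  | _ + 1, φ => supAll (.sup φ)

theorem supAll_eval (M : Str.{u} L) {n : ℕ} (φ : Fml L n) :
    (supAll φ).eval M (fun i => i.elim0) = 0 ↔ ∀ v, φ.eval M v = 0 := by
  induction n with
  | zero =>
    constructor
    · intro h v
      have : v = fun i => i.elim0 := funext fun i => i.elim0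
      rw [this]; exact h
    · intro h; exact h _
  | succ n ih =>
    change (supAll (.sup φ)).eval M (fun i => i.elim0) = 0 ↔ _
    rw [ih (.sup φ)]
    constructor
    · intro h v
      have h1 := h (Fin.init (α := fun _ => M.carrier) v)
      have h2 : φ.eval M v ≤ ⨆ a : M.carrier,
          φ.eval M (Fin.snoc (α := fun _ => M.carrier) (Fin.init (α := fun _ => M.carrier) v) a) := by
        have h3 := le_ciSup (f := fun a : M.carrier =>
          φ.eval M (Fin.snoc (α := fun _ => M.carrier) (Fin.init (α := fun _ => M.carrier) v) a))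
          ⟨1, by rintro _ ⟨a, rfl⟩; exact (eval_mem M φ _).2⟩ (v (Fin.last n))
        simp only [Fin.snoc_init_self] at h3
        exact h3
      have h4 : (⨆ a : M.carrier,
          φ.eval M (Fin.snoc (α := fun _ => M.carrier) (Fin.init (α := fun _ => M.carrier) v) a))
          = 0 := h1
      rw [h4] at h2
      exact le_antisymm h2 (eval_mem M φ v).1
    · intro h v
      change (⨆ a : M.carrier, φ.eval M (Fin.snoc (α := fun _ => M.carrier) v a)) = 0
      simp [h]

/-! ### The example: an infinite set with the discrete metric and a `[0,1]`-valued predicate -/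

/-- One unary predicate symbol. -/
inductive PrSym : ℕ → Type
  | P : PrSym 1

/-- The language with one unary predicate symbol. -/
def L0 : Lang where
  Fn := fun _ => Empty
  Pr := PrSym
  fnMod := fun _ _ => 1
  prMod := fun _ _ => 1
  fnMod_pos := fun _ _ _ => one_pos
  prMod_pos := fun _ _ _ => one_pos

/-- The value of the predicate. -/
def pv (M : Str.{u} L0) (a : M.carrier) : ℝ := M.pr (n := 1) PrSym.P (fun _ => a)

theorem pv_mem (M : Str.{u} L0) (a : M.carrier) : pv M a ∈ Icc (0 : ℝ) 1 := M.pr_mem _ _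

/-- The metric is discrete and the predicate takes values near every `r` at infinitely many
points. -/
structure Good (M : Str.{u} L0) : Prop where
  discrete : ∀ x y : M.carrier, x ≠ y → dist x y = 1
  dense : ∀ (n : ℕ) (v : Fin n → M.carrier) (r : ℝ), r ∈ Icc (0 : ℝ) 1 → ∀ ε : ℝ, 0 < ε →
    ∃ y : M.carrier, (∀ i, v i ≠ y) ∧ |pv M y - r| < ε

theorem extend {M N : Str.{u} L0} (hN : Good N) {n : ℕ} {v : Fin n → M.carrier}
    {w : Fin n → N.carrier} {δ : ℝ} (hδ : 0 < δ) (hp : ∀ i j, v i = v j ↔ w i = w j)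
    (hc : ∀ i, |pv M (v i) - pv N (w i)| < δ) (a : M.carrier) :
    ∃ b : N.carrier,
      (∀ i j, Fin.snoc (α := fun _ => M.carrier) v a i = Fin.snoc (α := fun _ => M.carrier) v a j ↔
        Fin.snoc (α := fun _ => N.carrier) w b i = Fin.snoc (α := fun _ => N.carrier) w b j) ∧
      ∀ i, |pv M (Fin.snoc (α := fun _ => M.carrier) v a i) -
        pv N (Fin.snoc (α := fun _ => N.carrier) w b i)| < δ := by
  by_cases h : ∃ i, v i = a
  · obtain ⟨i0, rfl⟩ := h
    refine ⟨w i0, ?_, ?_⟩
    · intro i j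
      induction i using Fin.lastCases <;> induction j using Fin.lastCases <;> simp [hp]
    · intro i
      induction i using Fin.lastCases <;> simp [hc]
  · push Not at h
    obtain ⟨b, hb1, hb2⟩ := hN.dense n w (pv M a) (pv_mem M a) δ hδ
    refine ⟨b, ?_, ?_⟩
    · intro i j
      induction i using Fin.lastCases <;> induction j using Fin.lastCases
      · simp
      · rename_i j
        simp [(h j).symm, (hb1 j).symm]
      · rename_i i
        simp [h i, hb1 i]
      · simp [hp]
    · intro i
      induction i using Fin.lastCases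
      · simp only [Fin.snoc_last]
        rw [abs_sub_comm]
        exact hb2
      · simp [hc]

theorem exists_lower {k : ℕ} (f : Fin k → ℝ) (hf : ∀ i, 0 < f i) :
    ∃ δ : ℝ, 0 < δ ∧ ∀ i, δ ≤ f i := by
  rcases isEmpty_or_nonempty (Fin k) with h | h
  · exact ⟨1, one_pos, fun i => isEmptyElim i⟩
  · obtain ⟨i0, h0⟩ := Finite.exists_min f
    exact ⟨f i0, hf i0, h0⟩

theorem term_var {n : ℕ} (t : Term L0 n) : ∃ i, t = Term.var i := by
  cases t with
  | var i => exact ⟨i, rfl⟩
  | app f ts => exact (f : Empty).elim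

/-- Formulas are uniformly continuous functions of the values of the predicate, for a given
pattern of equalities. -/
theorem main_lemma {n : ℕ} (φ : Fml L0 n) : ∀ ε : ℝ, 0 < ε → ∃ δ : ℝ, 0 < δ ∧
    ∀ M N : Str.{u} L0, Good M → Good N → ∀ (v : Fin n → M.carrier) (w : Fin n → N.carrier),
      (∀ i j, v i = v j ↔ w i = w j) → (∀ i, |pv M (v i) - pv N (w i)| < δ) →
      |φ.eval M v - φ.eval N w| ≤ ε := by
  induction φ with
  | dist s t =>
    intro ε hε
    refine ⟨1, one_pos, fun M N hM hN v w hp _ => ?_⟩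
    obtain ⟨i, rfl⟩ := term_var s
    obtain ⟨j, rfl⟩ := term_var t
    change |Dist.dist (v i) (v j) - Dist.dist (w i) (w j)| ≤ ε
    by_cases h : v i = v j
    · rw [h, (hp i j).1 h]
      simpa using hε.le
    · rw [hM.discrete _ _ h, hN.discrete _ _ (fun h' => h ((hp i j).2 h'))]
      simpa using hε.le
  | pred R ts =>
    intro ε hε
    refine ⟨ε, hε, fun M N hM hN v w hp hc => ?_⟩
    cases R
    obtain ⟨i, hi⟩ := term_var (ts 0)
    have h1 : (fun i => (ts i).eval M v) = fun _ => v i := by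
      funext j
      rw [Subsingleton.elim j 0, hi]
      rfl
    have h2 : (fun i => (ts i).eval N w) = fun _ => w i := by
      funext j
      rw [Subsingleton.elim j 0, hi]
      rfl
    change |M.pr _ (fun i => (ts i).eval M v) - N.pr _ (fun i => (ts i).eval N w)| ≤ ε
    rw [h1, h2]
    exact (hc i).le
  | @conn n k c hc h φs ih =>
    intro ε hε
    have hK : IsCompact (Set.pi univ (fun _ : Fin k => Icc (0 : ℝ) 1)) :=
      isCompact_univ_pi fun _ => isCompact_Icc
    have hu := hK.uniformContinuousOn_of_continuous hc.continuousOn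
    obtain ⟨η, hη, hcη⟩ := (Metric.uniformContinuousOn_iff.1 hu) ε hε
    choose δ hδ hδ' using fun i => ih i (η / 2) (half_pos hη)
    obtain ⟨δ0, h0, h0'⟩ := exists_lower δ hδ
    refine ⟨δ0, h0, fun M N hM hN v w hp hcl => ?_⟩
    have h3 := hcη (fun i => (φs i).eval M v) (fun i _ => eval_mem M _ _)
      (fun i => (φs i).eval N w) (fun i _ => eval_mem N _ _) (by
        rw [dist_pi_lt_iff hη]
        intro i
        have h4 := hδ' i M N hM hN v w hp (fun j => (hcl j).trans_le (h0' i))
        rw [Real.dist_eq]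
        linarith)
    rw [Real.dist_eq] at h3
    exact h3.le
  | @inf n φ ih =>
    intro ε hε
    obtain ⟨δ, hδ, hδ'⟩ := ih ε hε
    refine ⟨δ, hδ, fun M N hM hN v w hp hcl => ?_⟩
    change |(⨅ a : M.carrier, φ.eval M (Fin.snoc (α := fun _ => M.carrier) v a)) -
      (⨅ a : N.carrier, φ.eval N (Fin.snoc (α := fun _ => N.carrier) w a))| ≤ ε
    have h1 : ∀ b : N.carrier, ∃ a : M.carrier,
        |φ.eval M (Fin.snoc (α := fun _ => M.carrier) v a) -
          φ.eval N (Fin.snoc (α := fun _ => N.carrier) w b)| ≤ ε := by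
      intro b
      obtain ⟨a, ha1, ha2⟩ := extend hM hδ (fun i j => (hp i j).symm)
        (fun i => by rw [abs_sub_comm]; exact hcl i) b
      exact ⟨a, hδ' M N hM hN _ _ (fun i j => (ha1 i j).symm)
        (fun i => by rw [abs_sub_comm]; exact ha2 i)⟩
    have h2 : ∀ a : M.carrier, ∃ b : N.carrier,
        |φ.eval N (Fin.snoc (α := fun _ => N.carrier) w b) -
          φ.eval M (Fin.snoc (α := fun _ => M.carrier) v a)| ≤ ε := by
      intro a
      obtain ⟨b, hb1, hb2⟩ := extend hN hδ hp hcl a
      exact ⟨b, by rw [abs_sub_comm]; exact hδ' M N hM hN _ _ hb1 hb2⟩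
    have h3 := iInf_le_add (fun a => eval_mem M φ _) h1
    have h4 := iInf_le_add (fun a => eval_mem N φ _) h2
    rw [abs_le]
    constructor <;> linarith
  | @sup n φ ih =>
    intro ε hε
    obtain ⟨δ, hδ, hδ'⟩ := ih ε hε
    refine ⟨δ, hδ, fun M N hM hN v w hp hcl => ?_⟩
    change |(⨆ a : M.carrier, φ.eval M (Fin.snoc (α := fun _ => M.carrier) v a)) -
      (⨆ a : N.carrier, φ.eval N (Fin.snoc (α := fun _ => N.carrier) w a))| ≤ ε
    have h1 : ∀ b : N.carrier, ∃ a : M.carrier,
        |φ.eval M (Fin.snoc (α := fun _ => M.carrier) v a) -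
          φ.eval N (Fin.snoc (α := fun _ => N.carrier) w b)| ≤ ε := by
      intro b
      obtain ⟨a, ha1, ha2⟩ := extend hM hδ (fun i j => (hp i j).symm)
        (fun i => by rw [abs_sub_comm]; exact hcl i) b
      exact ⟨a, hδ' M N hM hN _ _ (fun i j => (ha1 i j).symm)
        (fun i => by rw [abs_sub_comm]; exact ha2 i)⟩
    have h2 : ∀ a : M.carrier, ∃ b : N.carrier,
        |φ.eval N (Fin.snoc (α := fun _ => N.carrier) w b) -
          φ.eval M (Fin.snoc (α := fun _ => M.carrier) v a)| ≤ ε := by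
      intro a
      obtain ⟨b, hb1, hb2⟩ := extend hN hδ hp hcl a
      exact ⟨b, by rw [abs_sub_comm]; exact hδ' M N hM hN _ _ hb1 hb2⟩
    have h3 := le_iSup_add (fun a => eval_mem M φ _) h1
    have h4 := le_iSup_add (fun a => eval_mem N φ _) h2
    rw [abs_le]
    constructor <;> linarith

/-! ### Axioms for good structures -/

/-- The metric takes only the values `0` and `1`. -/
def ax1 : Fml L0 2 :=
  .conn (k := 1) (fun z => min (z 0) (1 - z 0)) (by fun_prop)
    (fun z hz => ⟨le_min (hz 0).1 (by linarith [(hz 0).2]), (min_le_left _ _).trans (hz 0).2⟩)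
    (fun _ => .dist (.var 0) (.var 1))

/-- Some `y` different from the free variables has a value near `r`. -/
noncomputable def ax2 (n : ℕ) (r : ℝ) : Fml L0 n :=
  .inf (.conn (k := n + 1)
    (fun z => min 1 (|z (Fin.last n) - r| + ∑ i : Fin n, (1 - z i.castSucc))) (by fun_prop)
    (fun z hz => ⟨le_min zero_le_one (add_nonneg (abs_nonneg _)
      (Finset.sum_nonneg fun i _ => by linarith [(hz i.castSucc).2])), min_le_left _ _⟩)
    (fun i => Fin.lastCases (motive := fun _ => Fml L0 (n + 1))
      (.pred PrSym.P (fun _ => .var (Fin.last n)))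
      (fun i => .dist (.var i.castSucc) (.var (Fin.last n))) i))

theorem ax1_eval (M : Str.{u} L0) (v : Fin 2 → M.carrier) :
    ax1.eval M v = min (dist (v 0) (v 1)) (1 - dist (v 0) (v 1)) := rfl

theorem ax2_eval (M : Str.{u} L0) (n : ℕ) (r : ℝ) (v : Fin n → M.carrier) :
    (ax2 n r).eval M v =
      ⨅ y : M.carrier, min 1 (|pv M y - r| + ∑ i : Fin n, (1 - dist (v i) y)) := by
  unfold ax2
  simp only [Fml.eval]
  refine iInf_congr fun y => ?_
  simp only [Fin.lastCases_last, Fin.lastCases_castSucc, Fml.eval, Term.eval, Fin.snoc_last,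
    Fin.snoc_castSucc]
  rfl

theorem good_iff (M : Str.{u} L0) : Good M ↔ (supAll ax1).eval M (fun i => i.elim0) = 0 ∧
    ∀ (n : ℕ) (r : ℝ), r ∈ Icc (0 : ℝ) 1 → (supAll (ax2 n r)).eval M (fun i => i.elim0) = 0 := by
  simp only [supAll_eval, ax1_eval, ax2_eval]
  constructor
  · intro h
    refine ⟨fun v => ?_, fun n r hr v => ?_⟩
    · by_cases h1 : v 0 = v 1
      · rw [h1]; simp
      · rw [h.discrete _ _ h1]; simp
    · have hnn : ∀ y : M.carrier,
          0 ≤ min 1 (|pv M y - r| + ∑ i : Fin n, (1 - dist (v i) y)) := fun y =>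
        le_min zero_le_one (add_nonneg (abs_nonneg _)
          (Finset.sum_nonneg fun i _ => by linarith [M.dist_le (v i) y]))
      refine le_antisymm ?_ (le_ciInf hnn)
      refine le_of_forall_pos_le_add fun ε hε => ?_
      obtain ⟨y, hy1, hy2⟩ := h.dense n v r hr ε hε
      refine (ciInf_le ⟨0, by rintro _ ⟨a, rfl⟩; exact hnn a⟩ y).trans ?_
      refine (min_le_right _ _).trans ?_
      have h3 : ∑ i : Fin n, (1 - dist (v i) y) = 0 :=
        Finset.sum_eq_zero fun i _ => by rw [h.discrete _ _ (hy1 i)]; ring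
      rw [h3]
      linarith
  · rintro ⟨h1, h2⟩
    refine ⟨fun x y hxy => ?_, fun n v r hr ε hε => ?_⟩
    · have h3 := h1 ![x, y]
      simp only [Matrix.cons_val_zero, Matrix.cons_val_one] at h3
      have h4 : 0 < dist x y := dist_pos.2 hxy
      have h5 := M.dist_le x y
      rcases min_choice (dist x y) (1 - dist x y) with h6 | h6 <;> rw [h6] at h3 <;> linarith
    · have h3 : (⨅ y : M.carrier, min 1 (|pv M y - r| + ∑ i : Fin n, (1 - dist (v i) y))) <
          min ε 1 := by
        rw [h2 n r hr v]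
        exact lt_min hε one_pos
      obtain ⟨y, hy⟩ := exists_lt_of_ciInf_lt h3
      have h4 : |pv M y - r| + ∑ i : Fin n, (1 - dist (v i) y) < min ε 1 := by
        rcases min_lt_iff.1 hy with h5 | h5
        · exact absurd (h5.trans_le (min_le_right _ _)) (lt_irrefl _)
        · exact h5
      have hterm : ∀ i : Fin n, 0 ≤ 1 - dist (v i) y := fun i => by
        linarith [M.dist_le (v i) y]
      have h5 : 0 ≤ ∑ i : Fin n, (1 - dist (v i) y) := Finset.sum_nonneg fun i _ => hterm i
      refine ⟨y, fun i hi => ?_, ?_⟩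
      · have h6 : 1 - dist (v i) y ≤ ∑ i : Fin n, (1 - dist (v i) y) :=
          Finset.single_le_sum (fun i _ => hterm i) (Finset.mem_univ i)
        rw [hi, dist_self] at h6
        have h7 := h4.trans_le (min_le_right _ _)
        have h8 := abs_nonneg (pv M y - r)
        linarith
      · have h7 := h4.trans_le (min_le_left _ _)
        linarith

/-! ### The standard model -/

/-- The points of the unit interval. -/
structure Pt : Type u where
  /-- The coordinate. -/
  val : ℝ
  mem : val ∈ Icc (0 : ℝ) 1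

theorem Pt.ext' {x y : Pt.{u}} (h : x.val = y.val) : x = y := by
  cases x; cases y; simp only at h; subst h; rfl

open Classical in
noncomputable instance : MetricSpace Pt.{u} where
  dist x y := if x = y then 0 else 1
  dist_self x := by simp
  dist_comm x y := by simp only [eq_comm]
  dist_triangle x y z := by
    by_cases h1 : x = y
    · subst h1
      simp
    · have h2 : (0 : ℝ) ≤ if y = z then (0 : ℝ) else 1 := by split_ifs <;> norm_num
      have h3 : (if x = z then (0 : ℝ) else 1) ≤ 1 := by split_ifs <;> norm_num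
      rw [if_neg h1]
      linarith
  eq_of_dist_eq_zero := by
    intro x y h
    by_contra h1
    rw [if_neg h1] at h
    exact one_ne_zero h

theorem Pt.dist_of_ne {x y : Pt.{u}} (h : x ≠ y) : dist x y = 1 := if_neg h

theorem Pt.eq_of_lt {x y : Pt.{u}} (h : dist x y < 1) : x = y := by
  by_contra h1
  rw [Pt.dist_of_ne h1] at h
  exact lt_irrefl _ h

instance : CompleteSpace Pt.{u} := by
  refine Metric.complete_of_cauchySeq_tendsto fun s hs => ?_
  obtain ⟨N, hN⟩ := Metric.cauchySeq_iff'.1 hs 1 one_pos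
  refine ⟨s N, tendsto_const_nhds.congr' ?_⟩
  filter_upwards [Filter.eventually_ge_atTop N] with n hn
  exact (Pt.eq_of_lt (hN n hn)).symm

instance : Nonempty Pt.{u} := ⟨⟨0, by norm_num, by norm_num⟩⟩

/-- The interpretation of the predicate in the standard model. -/
def prVal : ∀ {n : ℕ}, PrSym n → (Fin n → Pt.{u}) → ℝ
  | _, PrSym.P, x => (x 0).val

/-- The unit interval with the discrete metric and the predicate `P(x) = x`. -/
noncomputable def M0 : Str.{u} L0 where
  carrier := Pt.{u}
  dist_le := fun x y => by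
    by_cases h : x = y
    · subst h; simp
    · rw [Pt.dist_of_ne h]
  fn := fun f => (f : Empty).elim
  pr := fun R x => prVal R x
  pr_mem := fun R x => by cases R; exact (x 0).mem
  fn_uc := fun f => (f : Empty).elim
  pr_uc := fun R ε hε x y h => by
    have h1 : x = y := by
      funext i
      exact Pt.eq_of_lt ((dist_le_pi_dist x y i).trans_lt h)
    rw [h1]
    simpa using hε.le

theorem good_M0 : Good M0.{u} := by
  refine ⟨fun x y h => Pt.dist_of_ne h, fun n v r hr ε hε => ?_⟩
  have h1 : (Ioo (max 0 (r - ε)) (min 1 (r + ε))).Infinite := by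
    refine Ioo_infinite ?_
    rw [max_lt_iff, lt_min_iff, lt_min_iff]
    exact ⟨⟨one_pos, by linarith [hr.1]⟩, by linarith [hr.2], by linarith⟩
  obtain ⟨y, hy1, hy2⟩ := h1.exists_notMem_finset
    (Finset.univ.image fun i : Fin n => Pt.val (v i : Pt.{u}))
  have h2 := (max_lt_iff.1 hy1.1)
  have h3 := (lt_min_iff.1 hy1.2)
  refine ⟨(⟨y, h2.1.le, h3.1.le⟩ : Pt.{u}), fun i hi => hy2 ?_, ?_⟩
  · rw [Finset.mem_image]
    exact ⟨i, Finset.mem_univ i, by rw [hi]⟩
  · change |y - r| < ε
    rw [abs_lt]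
    constructor <;> linarith [h2.2, h3.2]

/-- The theory of the standard model. -/
def T0 : Set (Fml L0 0) := {φ | φ.eval M0.{u} (fun i => i.elim0) = 0}

theorem models_M0 : Models M0.{u} T0.{u} := fun _ h => h

theorem good_of_models {M : Str.{u} L0} (h : Models M T0.{u}) : Good M := by
  have h0 := (good_iff M0.{u}).1 good_M0
  exact (good_iff M).2 ⟨h _ h0.1, fun n r hr => h _ (h0.2 n r hr)⟩

theorem complete_T0 : IsCompleteTheory.{u} T0.{u} := by
  refine ⟨⟨M0, models_M0⟩, fun M N hM hN φ => ?_⟩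
  refine eq_of_forall_dist_le fun ε hε => ?_
  obtain ⟨δ, hδ, hδ'⟩ := main_lemma.{u} φ ε hε
  exact hδ' M N (good_of_models hM) (good_of_models hN) _ _ (fun i => i.elim0) (fun i => i.elim0)

/-! ### Stability -/

theorem refine_coords {α : Type u} {N : ℕ} (c : ℕ → Fin N → α) (S : Set ℕ) (hS : S.Infinite)
    (s : Finset (Fin N)) : ∃ S' ⊆ S, S'.Infinite ∧ ∀ k ∈ s,
      (∀ i ∈ S', ∀ j ∈ S', c i k = c j k) ∨ InjOn (fun i => c i k) S' := by
  classical
  induction s using Finset.induction_on with
  | empty => exact ⟨S, subset_rfl, hS, by simp⟩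
  | insert k s hk ih =>
    obtain ⟨S1, h1, h2, h3⟩ := ih
    by_cases hfin : ((fun i => c i k) '' S1).Finite
    · have h4 : ∃ y ∈ (fun i => c i k) '' S1, {i ∈ S1 | c i k = y}.Infinite := by
        by_contra hcon
        push Not at hcon
        refine h2 ?_
        refine (hfin.biUnion hcon).subset fun i hi => ?_
        simp only [mem_iUnion]
        exact ⟨c i k, ⟨i, hi, rfl⟩, hi, rfl⟩
      obtain ⟨y, -, h5⟩ := h4
      refine ⟨{i ∈ S1 | c i k = y}, (sep_subset _ _).trans h1, h5, fun l hl => ?_⟩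
      rcases Finset.mem_insert.1 hl with rfl | hl
      · exact Or.inl fun i hi j hj => hi.2.trans hj.2.symm
      · rcases h3 l hl with h6 | h6
        · exact Or.inl fun i hi j hj => h6 i hi.1 j hj.1
        · exact Or.inr (h6.mono (sep_subset _ _))
    · obtain ⟨S2, h4, h5⟩ := exists_subset_bijOn S1 (fun i => c i k)
      refine ⟨S2, h4.trans h1, ?_, fun l hl => ?_⟩
      · refine Set.Infinite.of_image (fun i => c i k) ?_
        rw [h5.image_eq]
        exact hfin
      · rcases Finset.mem_insert.1 hl with rfl | hl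
        · exact Or.inr h5.injOn
        · rcases h3 l hl with h6 | h6
          · exact Or.inl fun i hi j hj => h6 i (h4 hi) j (h4 hj)
          · exact Or.inr (h6.mono h4)

/-- In a good structure, every infinite sequence of tuples has two members that may be exchanged
almost without changing the value of a formula. -/
theorem exchange (M : Str.{u} L0) {N : ℕ} (c : ℕ → Fin N → M.carrier) (δ : ℝ) (hδ : 0 < δ) :
    ∃ i j, i < j ∧ (∀ k l, c i k = c i l ↔ c j k = c j l) ∧
      (∀ k l, c i k = c j l ↔ c j k = c i l) ∧ ∀ k, |pv M (c i k) - pv M (c j k)| < δ := by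
  classical
  have hb : ∀ a : M.carrier, ⌊pv M a / δ⌋₊ < ⌊1 / δ⌋₊ + 1 := fun a =>
    Nat.lt_succ_of_le (Nat.floor_le_floor (div_le_div_of_nonneg_right (pv_mem M a).2 hδ.le))
  let χ : ℕ → (Fin N → Fin N → Prop) × (Fin N → Fin (⌊1 / δ⌋₊ + 1)) := fun i =>
    (fun k l => c i k = c i l, fun k => ⟨⌊pv M (c i k) / δ⌋₊, hb _⟩)
  obtain ⟨χ0, hinf⟩ := Finite.exists_infinite_fiber χ
  have hS : (χ ⁻¹' {χ0}).Infinite := Set.infinite_coe_iff.1 hinf
  obtain ⟨S, h1, h2, h3⟩ := refine_coords c _ hS Finset.univ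
  have hpat : ∀ i ∈ S, ∀ j ∈ S, ∀ k l, c i k = c i l ↔ c j k = c j l := by
    intro i hi j hj k l
    have h4 : χ i = χ j := (h1 hi : χ i = χ0).trans (h1 hj : χ j = χ0).symm
    have h5 := congrFun (congrFun (congrArg Prod.fst h4) k) l
    exact iff_of_eq h5
  have hcl : ∀ i ∈ S, ∀ j ∈ S, ∀ k, |pv M (c i k) - pv M (c j k)| < δ := by
    intro i hi j hj k
    have h4 : χ i = χ j := (h1 hi : χ i = χ0).trans (h1 hj : χ j = χ0).symm
    have h5 : ⌊pv M (c i k) / δ⌋₊ = ⌊pv M (c j k) / δ⌋₊ :=
      congrArg Fin.val (congrFun (congrArg Prod.snd h4) k)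
    have h6 := Nat.floor_le (div_nonneg (pv_mem M (c i k)).1 hδ.le)
    have h7 := Nat.lt_floor_add_one (pv M (c i k) / δ)
    have h8 := Nat.floor_le (div_nonneg (pv_mem M (c j k)).1 hδ.le)
    have h9 := Nat.lt_floor_add_one (pv M (c j k) / δ)
    rw [h5] at h6 h7
    have h10 : |pv M (c i k) / δ - pv M (c j k) / δ| < 1 := by
      rw [abs_lt]; constructor <;> linarith
    rw [← sub_div, abs_div, abs_of_pos hδ, div_lt_one hδ] at h10
    exact h10
  obtain ⟨i, hi⟩ := h2.nonempty
  have hB : (⋃ l : Fin N, ⋃ k : Fin N,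
      {j ∈ S | InjOn (fun i => c i l) S ∧ c j l = c i k}).Finite := by
    refine Set.finite_iUnion fun l => Set.finite_iUnion fun k => ?_
    refine Set.Subsingleton.finite ?_
    rintro j ⟨hj, hinj, hjl⟩ j' ⟨hj', -, hjl'⟩
    exact hinj hj hj' (hjl.trans hjl'.symm)
  obtain ⟨j, hjS, hj⟩ := (h2.sdiff (hB.union (finite_Iic i))).nonempty
  rw [mem_union, not_or, mem_Iic, not_le] at hj
  have hne : ∀ l k, InjOn (fun i => c i l) S → c j l ≠ c i k := by
    intro l k hinj heq
    refine hj.1 ?_
    simp only [mem_iUnion]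
    exact ⟨l, k, hjS, hinj, heq⟩
  refine ⟨i, j, hj.2, hpat i hi j hjS, fun k l => ?_, hcl i hi j hjS⟩
  rcases h3 l (Finset.mem_univ l) with hl | hl
  · rw [hl j hjS i hi, hpat i hi j hjS k l, hl j hjS i hi]
  · rcases h3 k (Finset.mem_univ k) with hk | hk
    · rw [hk i hi j hjS, ← hpat i hi j hjS k l, hk j hjS i hi]
    · exact iff_of_false (fun h => hne l k hl h.symm) (hne k l hk)

theorem stable_T0 : IsStable.{u} T0.{u} := by
  rintro M hM m n φ ε hε ⟨a, b, hab⟩
  have hG := good_of_models hM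
  obtain ⟨δ, hδ, hδ'⟩ := main_lemma.{u} φ (ε / 2) (half_pos hε)
  obtain ⟨i, j, hij, h1, h2, h3⟩ := exchange M (fun i => Fin.append (a i) (b i)) δ hδ
  have h4 := hab i j hij
  have h5 := hδ' M M hG hG (Fin.append (a i) (b j)) (Fin.append (a j) (b i)) (fun p q => by
      induction p using Fin.addCases with
      | left p =>
        induction q using Fin.addCases with
        | left q => simpa using h1 (Fin.castAdd n p) (Fin.castAdd n q)
        | right q => simpa using h2 (Fin.castAdd n p) (Fin.natAdd m q)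
      | right p =>
        induction q using Fin.addCases with
        | left q =>
          have h6 := h2 (Fin.natAdd m p) (Fin.castAdd n q)
          simp only [Fin.append_left, Fin.append_right] at h6 ⊢
          exact h6.symm
        | right q =>
          have h6 := h1 (Fin.natAdd m p) (Fin.natAdd m q)
          simp only [Fin.append_right] at h6 ⊢
          exact h6.symm)
    (fun p => by
      induction p using Fin.addCases with
      | left p => simpa using h3 (Fin.castAdd n p)
      | right p =>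
        have h6 := h3 (Fin.natAdd m p)
        simp only [Fin.append_right] at h6 ⊢
        rw [abs_sub_comm]
        exact h6)
  linarith

/-! ### Too few d-definable sets -/

/-- The one-tuple `t`. -/
def pt (t : ℝ) (ht : t ∈ Icc (0 : ℝ) 1) : Fin 1 → M0.{u}.carrier := fun _ => (⟨t, ht⟩ : Pt.{u})

theorem mem_of_dDefinable (D : Set (Fin 1 → M0.{u}.carrier))
    (hD : IsDDefinable M0.{u} ∅ D) (h0 : pt 0 ⟨le_rfl, zero_le_one⟩ ∈ D) :
    ∀ (t : ℝ) (ht : t ∈ Icc (0 : ℝ) 1), pt t ht ∈ D := by
  obtain ⟨hcl, hdef⟩ := hD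
  obtain ⟨k, φ, c, hc, hφ⟩ := hdef (1 / 4) (by norm_num)
  have hk : k = 0 := by
    rcases Nat.eq_zero_or_pos k with h | h
    · exact h
    · exact absurd (hc ⟨0, h⟩) (notMem_empty _)
  subst hk
  obtain ⟨δ, hδ, hδ'⟩ := main_lemma.{u} φ (1 / 4) (by norm_num)
  have hstep : ∀ (s t : ℝ) (hs : s ∈ Icc (0 : ℝ) 1) (ht : t ∈ Icc (0 : ℝ) 1), |s - t| < δ →
      pt s hs ∈ D → pt t ht ∈ D := by
    intro s t hs ht hst hsD
    by_contra htD
    have h1 : Metric.infDist (pt s hs) D = 0 := Metric.infDist_zero_of_mem hsD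
    have h2 : 1 ≤ Metric.infDist (pt t ht) D := by
      rw [Metric.le_infDist ⟨_, h0⟩]
      intro y hy
      have h3 : pt t ht 0 ≠ y 0 := by
        intro h
        refine htD ?_
        have : pt t ht = y := funext fun i => by rw [Subsingleton.elim i 0]; exact h
        rw [this]
        exact hy
      have h4 : dist (pt t ht 0) (y 0) = 1 := Pt.dist_of_ne h3
      rw [← h4]
      exact dist_le_pi_dist _ _ 0
    have h3 := hδ' M0 M0 good_M0 good_M0 (Fin.append (pt s hs) c) (Fin.append (pt t ht) c)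
      (fun i j => by
        have : i = j := Subsingleton.elim (α := Fin 1) i j
        subst this
        simp)
      (fun i => by
        have : i = Fin.castAdd 0 0 := Subsingleton.elim (α := Fin 1) i _
        subst this
        rw [Fin.append_left, Fin.append_left]
        exact hst)
    have h4 := hφ (pt s hs)
    have h5 := hφ (pt t ht)
    beta_reduce at h4 h5
    rw [h1] at h4
    rw [abs_le] at h3 h4 h5
    linarith [h3.1, h3.2, h4.1, h4.2, h5.1, h5.2]
  have hN : ∀ (N : ℕ) (t : ℝ) (ht : t ∈ Icc (0 : ℝ) 1), t ≤ N * (δ / 2) → pt t ht ∈ D := by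
    intro N
    induction N with
    | zero =>
      intro t ht h
      have : t = 0 := le_antisymm (by simpa using h) ht.1
      subst this
      exact h0
    | succ N ih =>
      intro t ht h
      push_cast at h
      have hs : max 0 (t - δ / 2) ∈ Icc (0 : ℝ) 1 :=
        ⟨le_max_left _ _, max_le zero_le_one (by linarith [ht.2])⟩
      refine hstep _ t hs ht ?_ (ih _ hs (max_le (by positivity) (by linarith)))
      rw [abs_lt]
      have h1 : t - δ / 2 ≤ max 0 (t - δ / 2) := le_max_right _ _
      have h2 : max 0 (t - δ / 2) ≤ t := max_le ht.1 (by linarith)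
      constructor <;> linarith
  intro t ht
  obtain ⟨N, hN'⟩ := exists_nat_ge (1 / (δ / 2))
  refine hN N t ht (ht.2.trans ?_)
  rwa [div_le_iff₀ (half_pos hδ)] at hN'

theorem not_enough : ¬ HasEnoughDDefinable.{u} T0.{u} := by
  intro h
  let p : CompleteType M0.{u} ∅ 1 :=
    { val := fun k φ c => φ.eval M0 (Fin.append (pt 0 ⟨le_rfl, zero_le_one⟩)
        (fun i => (c i : M0.{u}.carrier)))
      finite_approx := fun F _ ε hε => ⟨pt 0 ⟨le_rfl, zero_le_one⟩, fun q _ => by
        simpa using hε.le⟩ }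
  obtain ⟨𝒟, h1, h2⟩ := h M0 models_M0 ∅ 1 p
  have h3 : pt 0 ⟨le_rfl, zero_le_one⟩ ∈ p.realizations := fun k φ c => rfl
  have h4 : pt 1 ⟨zero_le_one, le_rfl⟩ ∈ p.realizations := by
    rw [← h2]
    rw [← h2] at h3
    intro D hD
    exact mem_of_dDefinable D (h1 D hD) (h3 D hD) _ _
  have h5 := h4 0 (.pred PrSym.P (fun _ => .var 0)) (fun i => i.elim0)
  have h6 : (1 : ℝ) = 0 := h5
  exact one_ne_zero h6

/-- There is a stable (and complete) continuous theory that does not have enough d-definable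
sets. -/
theorem result : ∃ (L : Lang) (T : Set (Fml L 0)),
    IsCompleteTheory.{u} T ∧ IsStable.{u} T ∧ ¬ HasEnoughDDefinable.{u} T :=
  ⟨L0, T0.{u}, complete_T0, stable_T0, not_enough⟩

end Pool.Agent.Results.MP_cc3859_lc.StableCounterexample
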